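import Pool.Agent.MWGQ.Defs

/-!
# MWGQ: the doubling pentagon for period `n` (rows)

MP_23468a_al, necessity in the world `xyx ≈ xyx^(n+1)`, all periods.  Almost every row is the twin of
the row of MWGN with the same name (tables mwgn, mwgq; files Helper*_MWGN/XXX.lean): copy the file
and adapt it.  Every row is self contained, its complete proof is in the docstring.  Tools:
`RR.append`, `RR.sub`, `RR.filter`, `RR.symm`, `RR.refl`, `β.trans`; the lemmas on `pre` in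
MWK/Defs.lean; `nn w c q = (pre w q).count c`; `Z a = 0^a`.
-/

namespace Pool.Agent.MWGQ

open Pool.Agent.Helper14_MV Pool.Agent.Helper2_MV
open Pool.Agent.MWK (pre)
open Pool.Agent.MWF (gaml)
open Pool.Agent.MWGN (Nm WC WT Tau Ns nl sg nn N1 N2 K0 Kb Kc T2 gh)

/-! ### tools -/

/-- PWX (easy-medium).  Powers of words.
Proof.  (1) `Z 2 ~ Z (n+2)` gives `Z i ~ Z (i + n*k)` for `i ≥ 2` (append `Z (i-2)`, induction on `k`), so
`Z a ~ Z b` for `a, b ≥ 2`, `a ≡ b`; substitute `0 ↦ X`.  (2) `gm` with `0 ↦ X`, `1 ↦ u`: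
`X u X ~ X u X^(n+1)`, append `X^(i-1)`: `X u X^i ~ X u X^(i+n)`, induction.  (3) `a (n+1) ≡ a`,
`a (n+1) ≥ 2`, so `X^a C^b ~ (X^a)^(n+1) (C^b)^(n+1)` by (1), then `c` with `0 ↦ X^a`, `1 ↦ C^b`, and
(1) back. -/
def PwxStmt : Prop := ∀ (n : ℕ) (β : FIC), Gn n β →
  (∀ (X : List ℕ) (a b : ℕ), 2 ≤ a → 2 ≤ b → a ≡ b [MOD n] → RR β (pw a X) (pw b X)) ∧
  (∀ (X u : List ℕ) (a b : ℕ), 1 ≤ a → 1 ≤ b → a ≡ b [MOD n] →
    RR β (X ++ (u ++ pw a X)) (X ++ (u ++ pw b X))) ∧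
  (∀ (X C : List ℕ) (a b : ℕ), 2 ≤ a → 2 ≤ b → RR β (pw a X ++ pw b C) (pw b C ++ pw a X))

/-- CNT (easy).  The number of occurrences of a letter.
Proof.  `RR.sub (fun d => if d = c then [0] else [])` gives `RR β (Z (w.count c)) (Z (w'.count c))`; `e1`
(also for the symmetric identity) and `en`. -/
def CntStmt : Prop := ∀ (n : ℕ) (β : FIC), Gn n β → ∀ w w' : List ℕ, RR β w w' → ∀ c : ℕ,
  (w.count c ≤ 1 → w'.count c = w.count c) ∧ (2 ≤ w.count c → 2 ≤ w'.count c) ∧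
    w.count c ≡ w'.count c [MOD n]

/-- EXP (medium).  The exact period.
Proof.  Let `d ≥ 1` be minimal with `Z 2 ~ Z (d+2)` (`Nat.find`; `n` is one).  Claim: if `Z a ~ Z b`,
`2 ≤ a ≤ b`, `g = b - a`, then `Z 2 ~ Z (2+g)`: choose `k` with `2 + n k ≥ a`;
`Z 2 ~ Z (2 + n k) ~ Z (2 + n k + g) ~ Z (2+g)` (first and last step by the period `n`, middle step:
append `Z (2 + n k - a)`).  `g = d q + r`, `r < d`: `Z (2+g) ~ Z (2+r)` by the period `d`, so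
`Z 2 ~ Z (2+r)` and `r = 0`.  So `a ≡ b [MOD d]`, in particular `d ∣ n`.  If `a ≤ 1` or `b ≤ 1`: `Z a ~ Z b`
with `a ≠ b` gives `Z (k+1) ~ Z 1` for some `k ≥ 1` (`a = 0`: multiply by `Z 1`, `k = b`; `a = 1 < b`:
`k = b - 1`), excluded by the third hypothesis (compare `MWZ.H28.ncr_exp` in Helper28_MWZ/Full.lean). -/
def ExpStmt : Prop := ∀ (n : ℕ) (β : FIC), 1 ≤ n → RR β [0, 0] (Z (n + 2)) →
  (∀ k : ℕ, 1 ≤ k → ¬ β.r (lx ^ (k + 1)) lx) →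
    ∃ d, 1 ≤ d ∧ d ∣ n ∧ RR β [0, 0] (Z (d + 2)) ∧
      (∀ a b : ℕ, RR β (Z a) (Z b) → a ≤ 1 → b = a) ∧
      (∀ a b : ℕ, RR β (Z a) (Z b) → a ≡ b [MOD d])

/-- GND (easy-medium, uses EXP).  Reduction to the exact period.
Proof.  `d` from EXP.  `n + 1 ≡ d + 1 [MOD d]`, both `≥ 2`, so `Z (n+1) ~ Z (d+1)` (as in PWX (1) with
`d`), and every occurrence of `x^(n+1)` can be replaced by `x^(d+1)`: `gm`, `c`, `I1`; `nb`: if
`[0,1,0] ~ Z (d+1) 1 Z (d+1)` then `~ Z (n+1) 1 Z (n+1)`, excluded. -/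
def GndStmt : Prop := ∀ (n : ℕ) (β : FIC), 1 ≤ n → RR β [0, 0] (Z (n + 2)) →
  (∀ k : ℕ, 1 ≤ k → ¬ β.r (lx ^ (k + 1)) lx) → RR β [0, 1, 0] (0 :: 1 :: Z (n + 1)) →
  ¬ RR β [0, 1, 0] (Z (n + 1) ++ 1 :: Z (n + 1)) →
  RR β (Z (n + 1) ++ List.replicate (n + 1) 1) (List.replicate (n + 1) 1 ++ Z (n + 1)) →
  RR β [0, 1, 2, 0, 1] [1, 0, 2, 0, 1] →
    ∃ d, 1 ≤ d ∧ Gn d β ∧ (MWZ.I1 n (RR β) → MWZ.I1 d (RR β))

/-! ### rigidity -/

/-- CLS (medium, uses PWX).  One letter words with one simple letter.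
Proof.  If `a + b ≤ 1` or `a' + b' ≤ 1`: `a + b = a' + b'` by `e1` (delete `1`); sum `1` and
`(a,b) ≠ (a',b')`: `[0,1] ~ [1,0]`, so `[0,1,0] ~ [0,0,1]`, `[0,1,0] ~ 0 1 Z (n+1) = [0,1,0] Z n ~
[0,0,1] Z n ~ .. ` more simply: `1` commutes with every power of `0`, so `[0,1,0] ~ Z 2 1 ~ Z (2n+2) 1 ~
Z (n+1) 1 Z (n+1)`, excluded by `nb`.  Let both sums be `≥ 2`; they are congruent (`en`).  Types:
`A0` (`a = 0`), `A1` (`a = 1`, `b ≥ 1`), `A2` (`a ≥ 2`, `b = 0`), `A3` (`a ≥ 2`, `b ≥ 1`).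
(A1, A3): `0 1 0^b ~ 0^a' 1 0^b'`.  Append `0^k`, `b + k ≡ 1`, `k ≥ 1`: `[0,1,0] ~ 0 1 0^(b+k) ~
0^a' 1 0^l`, `a' + l ≡ 2`, `l ≥ 1`.  Iterate (replace the factor `[0,1,0]` in
`0^(j(a'-1)) [0,1,0] 0^(j(l-1))`): `[0,1,0] ~ 0^(j(a'-1)+1) 1 0^(j(l-1)+1)`; `j = n`: exponents `≡ 1`, the
first is `≥ 2`, so `[0,1,0] ~ Z (n+1) 1 Z (n+1)` (PWX), excluded.
(A2, A3): `0^a 1 ~ 0^a' 1 0^b'`, `b = b' ≥ 1`.  Put `0^k` in front, `a + k ≡ 2`, `k ≥ 1`, and use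
`a ≡ a' + b'`: for `N` large, `N ≡ 0`: `0^2 1 ~ 0^(N+2) 1 ~ 0^(2+N-b) 1 0^b`.  Multiply in front by
`0^(N-b)` and use it again: `0^(2+N-b) 1 ~ 0^(2+2N-2b) 1 0^b`; so
`0^2 1 ~ 0^(2+jN-jb) 1 0^(jb)` for all `j`; `j = n`: `~ 0^2 1 0^n` (PWX), this is `E0`, excluded.
(A1, A2): put `0` in front: (A3, A2).  (A0, A1), (A0, A3): `0` in front: (A1, A3).  (A0, A2): `0` in
front: (A1, A2). -/
def ClsStmt : Prop := ∀ (n : ℕ) (β : FIC), Gn n β → ¬ E0 n β → ∀ a b a' b' : ℕ,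
  RR β (Z a ++ 1 :: Z b) (Z a' ++ 1 :: Z b') →
    (a = 0 ↔ a' = 0) ∧ (a = 1 ↔ a' = 1) ∧ (b = 0 ↔ b' = 0)

/-- OLR (easy-medium, uses CLS, CNT).  Twin of MWGN.OLR. -/
def OlrStmt : Prop := ∀ (n : ℕ) (β : FIC), Gn n β → ¬ E0 n β → ∀ w w' : List ℕ, RR β w w' →
  ∀ c s : ℕ, w.count s = 1 → c ≠ s →
    (nn w c s = 0 ↔ nn w' c s = 0) ∧ (nn w c s = 1 ↔ nn w' c s = 1) ∧
      (nn w c s = w.count c ↔ nn w' c s = w'.count c)

/-- TLW (medium, uses PWX, CNT).  The two letter words of TLR.  Letters `c = 0`, `z = 1`, `s = 2`,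
`t = 3`.  (`m ≥ 1` with `m ≡ r` is available for every residue `r`.)
Proof.  (1) Numbers: `a ≡ a' + b'`, `k ≡ k'` (CNT).  Append `1^l`, `k + l ≡ 1`: both tails become `1`
(PWX (2), a `1` occurs before).  Put `0^j` in front, `a + j ≡ 2`.  So for `b = b' ≥ 1`, `N` large,
`N ≡ 0`: `[0,0,1,2,1] ~ 0^(2+N-b) 1 0^b 2 1`.  With `0^(N-b)` in front and `2 ↦ 0^b 2`:
`0^(2+N-b) 1 0^b 2 1 ~ 0^(2+2N-2b) 1 0^(2b) 2 1`, and so on: `[0,0,1,2,1] ~ 0^(2+jN-jb) 1 0^(jb) 2 1`; `j = n`: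
this is `A0` (PWX).
(2) Put `[0,3]` in front: `0 3 1 0^b 2 1^k ~ 0 3 0^a' 1 0^b' 2 1^k'`, now as (3) (`1 ≤ b`, `1 ≤ a'`).
(3) Tails as in (1).  `2 ↦ 0^j 2`, `b + j ≡ 1`, `j ≥ 1`: `0 3 1 0 2 1 ~ 0 3 0^a' 1 0^l 2 1`,
`a' + l ≡ 1` (CNT), `l ≥ 1`.  Iterate: with `3 ↦ 3 0^a'` and `2 ↦ 0^(N-a') 2` (the `0` in front of them
in the word is `0^1`, resp. `0^(1+N-a') ~ 0^l`): `0 3 0^a' 1 0^l 2 1 ~ 0 3 0^(2a') 1 0^(l') 2 1`,
`2a' + l' ≡ 1`, and so on; after `n` steps: `0 3 0^(n a') 1 0^(l'') 2 1` with `l'' ≡ 1`, that is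
`0 3 0^n 1 0 2 1` (PWX (2)): `P0` (rename `2 ↔ 3`). -/
def TlwStmt : Prop := ∀ (n : ℕ) (β : FIC), Gn n β → ∀ a b k a' b' k' : ℕ, 1 ≤ k → 1 ≤ k' →
  (2 ≤ a → 1 ≤ b' → RR β (Z a ++ 1 :: 2 :: List.replicate k 1)
    (Z a' ++ 1 :: (Z b' ++ 2 :: List.replicate k' 1)) → A0 n β) ∧
  (2 ≤ b → 1 ≤ a' → 2 ≤ a' + b' → RR β (1 :: (Z b ++ 2 :: List.replicate k 1))
    (Z a' ++ 1 :: (Z b' ++ 2 :: List.replicate k' 1)) → P0 n β) ∧
  (1 ≤ b → 1 ≤ a' → RR β (0 :: 3 :: 1 :: (Z b ++ 2 :: List.replicate k 1))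
    (0 :: 3 :: (Z a' ++ 1 :: (Z b' ++ 2 :: List.replicate k' 1))) → P0 n β)

/-- TLR (medium, uses OLR, TLW, CNT).  Twin of MWGN.TLR. -/
def TlrStmt : Prop := ∀ (n : ℕ) (β : FIC), Gn n β → ¬ E0 n β → ¬ P0 n β → ∀ w w' : List ℕ,
  RR β w w' → ∀ c z s : ℕ, w.count s = 1 → 2 ≤ w.count c → 2 ≤ w.count z → nn w z s = 1 →
    nn w c s = w.count c →
      (¬ A0 n β → nn w c z = w.count c → nn w' c z = w'.count c) ∧
      (nn w c z = 0 → nn w' c z = 0) ∧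
      (∀ t, w.count t = 1 → nn w c t = 1 → nn w z t = 0 → nn w c z = 1 → nn w' c z = 1)

/-- WCV (medium, uses OLR, TLR, CNT).  Twin of MWGN.WCV; `Rs` from CNT. -/
def WcvStmt : Prop := ∀ (n : ℕ) (β : FIC), Gn n β → ¬ E0 n β → ¬ P0 n β → ¬ A0 n β →
  ∀ (ν : Nm) (τ : List ℕ) (m nc : ℕ), Ns ν m → nc ≤ m + 1 → ∀ w w' : List ℕ, RR β w w' →
    (WC ν m nc w → WC ν m nc w') ∧ (WT ν τ m w → WT ν τ m w') ∧
      (Rs n ν m nc w → Rs n ν m nc w')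

/-! ### the identity kappa -/

/-- KAR (medium, uses PWX).  `x^2zsz ≈ x^2zx^nsz` implies `kappa`.
Proof.  All with words.  Let `I = pw n X`.  In a word in which `X` occurs before, `X ~ X I`,
`I ~ I I I` (PWX (2)) and `I C^(n+1) ~ C^(n+1) I` (`I ~ pw (2n) X`, PWX (3)).  (*) For every word `Q`
which contains `X` as a factor, every `L`, `C`, and every word `S` which contains `L` as a factor:
`Q I L C^(n+1) S ~ Q I L C^(n+1) I S`.  (`I ~ pw (3n) X = U X X`; `A0` with `0 ↦ X`, `1 ↦ L`,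
`2 ↦` the word between `L` and the next `L` in `C^(n+1) S`: `X X L s L ~ X X L I s L`; then `I`
is moved over `C^(n+1)`.)  Claim: for every `Q` with the factor `X` and every `S` with the factors
`L i`, `i < j`: `Q X bd_j S ~ Q X bd_j I S`.  `j = 0`: `X ~ X I`.  `j + 1`: `bd_(j+1) = bd_j L_j C_j^(n+1)`:
`Q X bd_j L_j C_j^(n+1) S ~ Q X bd_j I L_j C_j^(n+1) S` (claim `j`, the word behind contains `L i`)
`~ Q X bd_j I L_j C_j^(n+1) I S` (*) `~ Q X bd_j L_j C_j^(n+1) I S` (claim `j` backwards).  In the same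
way behind `L m`: with `P = XY` or `YX`, `P A X bd_m L_m Y .. ~ P A X bd_m I L_m I Y .. ~
P A X bd_m L_m I Y ..` (the tails contain all `L i`, `i ≤ m`, by `Tau`).  `I = pw (n-1) X ++ X`, so `k`
(`X Y t X Y ~ Y X t X Y`, `t = A X bd_m L_m X^(n-1)`), and back. -/
def KarStmt : Prop := ∀ (n : ℕ) (β : FIC), Gn n β → A0 n β → ∀ (m : ℕ) (τ : List ℕ), Tau τ m →
  Kap n β τ m

/-- KPR (medium, uses PWX).  `xtzxsz ≈ xtx^nzxsz` implies `kappa`.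
Proof.  Let `J = pw n Y`.  Claim, by induction from `j = m` down to `j = 0`: with
`R_j = L_j C_j^(n+1) .. C_(m-1)^(n+1) L_m Y B ..` (the end of `kr`, so `bd_m R_m = bd_j R_j`) for every
word `Q` which contains `Y` as a factor: `Q R_j ~ Q J R_j`.  `j = m`: `Y t L Y s L ~ Y t J L Y s L`
is `P0` (the tails contain `L_m`).  `j < m`, `R_j = L_j C_j^(n+1) R_(j+1)`: `Q L_j C_j^(n+1) R_(j+1) ~
Q L_j C_j^(n+1) J R_(j+1)` (claim `j+1`) `~ Q L_j J C_j^(n+1) R_(j+1)` (`J ~ pw (2n) Y`, PWX)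
`~ Q J L_j J C_j^(n+1) R_(j+1)` (`P0`: `J = Y Y^(n-1)`, the tails contain `L_j`) `~
Q J L_j C_j^(n+1) J R_(j+1) ~ Q J L_j C_j^(n+1) R_(j+1)` (claim `j+1` backwards for
`Q' = Q J L_j C_j^(n+1)`).  So `P A X bd_m L_m Y B .. ~ P A X J R_0` for `P = XY` or `YX`;
`J = Y Y^(n-1)`, and `X Y A X Y ~ Y X A X Y` is `k`. -/
def KprStmt : Prop := ∀ (n : ℕ) (β : FIC), Gn n β → P0 n β → ∀ (m : ℕ) (τ : List ℕ), Tau τ m →
  Kap n β τ m

/-- NOR (medium).  The exponents of the normal form.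
Proof.  The number of `c` in the filtered word is `w.count c` for `c ∈ nl ν m`.  Count on the right
side: all names are different (`Nodup`); `x` occurs once in `P` and `i` times; `L r` (`r < m`) once in
the `flatMap` over `range m`, `L m` once, and `f r` times in the block of `r` (`τ` has no
duplicates, `Tau`); `C r` occurs `e r` times. -/
def NorStmt : Prop := ∀ (ν : Nm) (τ : List ℕ) (m : ℕ), Tau τ m → (nl ν m).Nodup →
  ∀ (w P : List ℕ) (i j : ℕ) (e f : ℕ → ℕ), (P = [ν.x, ν.y] ∨ P = [ν.y, ν.x]) →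
    w.filter (fun c => decide (c ∈ nl ν m)) = P ++ ν.a :: (List.replicate i ν.x ++
      ((List.range m).flatMap (fun r => ν.L r :: List.replicate (e r) (ν.C r)) ++
        ν.L m :: (List.replicate j ν.y ++ ν.b ::
          τ.flatMap (fun r => ν.S r :: List.replicate (f r) (ν.L r))))) →
      w.count ν.x = i + 1 ∧ w.count ν.y = j + 1 ∧ (∀ r < m, w.count (ν.C r) = e r) ∧
        (∀ r ≤ m, w.count (ν.L r) = f r + 1)

/-- NOB (medium, uses PWX).  Normalisation of the exponents.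
Proof.  PWX (1) for `C r` (`e r ≥ 2`, `e r ≡ n + 1`).  PWX (2) for `x` (its first occurrence is in `P`),
`y`, and for every `L r` (its first occurrence is in the first part, `r ≤ m` by `Tau`).  Induction on
an initial part of `range m` and of `τ` (twin of MWGN.NOB; `pw k [c] = replicate k c`). -/
def NobStmt : Prop := ∀ (n : ℕ) (β : FIC), Gn n β → ∀ (ν : Nm) (τ : List ℕ) (m : ℕ), Tau τ m →
  ∀ (i j : ℕ) (e f : ℕ → ℕ), 1 ≤ i → i ≡ 1 [MOD n] → 1 ≤ j → j ≡ 1 [MOD n] →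
    (∀ r < m, 2 ≤ e r ∧ e r ≡ 1 [MOD n]) → (∀ r ≤ m, 1 ≤ f r ∧ f r ≡ 1 [MOD n]) →
    ∀ P : List ℕ, ν.x ∈ P → ν.y ∈ P →
      RR β (P ++ ν.a :: (List.replicate i ν.x ++
          ((List.range m).flatMap (fun r => ν.L r :: List.replicate (e r) (ν.C r)) ++
            ν.L m :: (List.replicate j ν.y ++ ν.b ::
              τ.flatMap (fun r => ν.S r :: List.replicate (f r) (ν.L r))))))
        (P ++ krl n ν τ m)

/-- REN (medium).  Renaming.  Twin of MWGN.REN (`(pw k u).flatMap f = pw k (u.flatMap f)`). -/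
def RenStmt : Prop := ∀ (n : ℕ) (β : FIC) (ν : Nm) (τ : List ℕ) (m : ℕ), Tau τ m →
  (nl ν m).Nodup → RR β ([ν.x, ν.y] ++ krl n ν τ m) ([ν.y, ν.x] ++ krl n ν τ m) → Kap n β τ m

/-- SPV (easy-medium, uses MWGN.NOA, NOR, NOB, REN, MWGN.DST, WCV, KAR, KPR).  **The special order is
kept.**
Proof.  Twin of MWGN.SPV.  `¬ Kap` gives `¬ A0` (KAR), `¬ P0` (KPR), `¬ E0` (`E0` implies `A0`: append
`[2, 1]`).  `w'` satisfies `WC`, `WT`, `Rs` (WCV).  Suppose `nn w' x y ≠ 1`: then it is 0 (NOA for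
`w'`).  NOA, NOR, NOB for `w, w'`: the exponents satisfy `i + 1 ≡ 2`, `f r + 1 ≡ 2`, so `i ≡ 1`, `f r ≡ 1`,
`e r ≡ 1` (`r < m ≤ nc`).  `RR.filter`: `RR β ([x, y] ++ krl) ([y, x] ++ krl)`.  DST and REN: `Kap`. -/
def SpvStmt : Prop := ∀ (n : ℕ) (β : FIC), Gn n β → ∀ (ν : Nm) (τ : List ℕ) (m nc : ℕ), Ns ν m →
  Tau τ m → m ≤ nc → nc ≤ m + 1 → ¬ Kap n β τ m → ∀ w w' : List ℕ, RR β w w' → WC ν m nc w →
    WT ν τ m w → Rs n ν m nc w → nn w ν.x ν.y = 1 → nn w' ν.x ν.y = 1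

/-- VCL (easy, uses WCV, SPV, KAR, KPR).  `β` keeps `KB` and `KC`.  Twin of MWGN.VCL. -/
def VclStmt : Prop := ∀ (n : ℕ) (β : FIC), Gn n β → ∀ (τ : List ℕ) (m : ℕ), Tau τ m →
  ¬ Kap n β τ m → ∀ w w' : List ℕ, RR β w w' →
    (KB n τ m w → KB n τ m w') ∧ (KC n τ m w → KC n τ m w')

/-- PRB (easy-medium).  `pre` in `bd`.  Twin of MWGN.PRB. -/
def PrbStmt : Prop := ∀ (n : ℕ) (L C : ℕ → ℕ) (m j : ℕ), j < m →
  (∀ i < m, ∀ i' < m, L i = L i' → i = i') → (∀ i < m, ∀ i' < m, C i ≠ L i') → ∀ R : List ℕ,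
    pre (bd n (sg L) (sg C) m ++ R) (L j) = bd n (sg L) (sg C) j

/-- SA1 (medium-strong, uses MWGN.PRF, PRB).  The word `w0 n τ m true true`, level 1.  Twin of MWGN.SA1
(`C i` occurs `n + 1 ≥ 2` times); `Rs`: `x, y, L i` occur twice, `C i` occurs `n + 1` times. -/
def Sa1Stmt : Prop := ∀ (n : ℕ), 1 ≤ n → ∀ (τ : List ℕ) (m : ℕ), Tau τ m →
  WC N1 m m (w0 n τ m true true) ∧ WT N1 τ m (w0 n τ m true true) ∧
    nn (w0 n τ m true true) 0 1 = 1 ∧ Rs n N1 m m (w0 n τ m true true)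

/-- SA2 (medium-strong, uses MWGN.PRF, PRB).  The same for level 2.  Twin of MWGN.SA2. -/
def Sa2Stmt : Prop := ∀ (n : ℕ), 1 ≤ n → ∀ (τ : List ℕ) (m : ℕ), Tau τ m →
  WC (N2 m) m (m + 1) (w0 n τ m true true) ∧ WT (N2 m) τ m (w0 n τ m true true) ∧
    nn (w0 n τ m true true) (N1.L m) (N1.L (m + 1)) = 1 ∧
      Rs n (N2 m) m (m + 1) (w0 n τ m true true)

/-- CMW (strong, uses PWX).  `kappa` for all orders and `x W x ≈ x^(n+1) W x` (`I1`) imply `Cm^w`.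
Proof.  Twin of MWGN.CMW with `d^(n+1)` in place of `dd`.  Let `w = p x y q x c y r`, `U := p x y q x`
resp. `p y x q x`.  `D u := u.flatMap (fun d => replicate (n+1) d)`.  (i) In `U ++ c ++ y :: r` every
occurrence of a letter `d` in `c` with `d ∉ r` or not the first occurrence in `U ++ c` may be replaced
by `d^(n+1)`: if `d` occurs before, PWX (2); if not and `d ∉ r`, `d ≠ y` (`y` occurs in `U`), then `d`
occurs again later in `c`, and `I1` applies.  (ii) Let `z_0, .., z_k` be the letters of `c` which do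
not occur in `U` and occur in `r`; `c = u_0 z_0 u_1 z_1 .. z_k u_(k+1)` with the first occurrences
`z_i`.  By (i) `u_i ~ D u_i` in this context, and `D u ~ pw (n+1) (D u)`: by PWX (3) the powers
`d^(n+1)` of the letters commute, both words are `~` to the product of `d^((n+1) k_d)`,
`d^((n+1)^2 k_d)` in a fixed order (`k_d = u.count d`), and `(n+1)^2 ≡ n + 1` (induction on `u`:
`D (d :: u) = d^(n+1) D u`, `pw k (A B) ~ pw k A ++ pw k B` if `A B ~ B A`).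
(iii) `x u_0 ~ x^(n+1) (D u_0) ~ (D u_0) x^(n+1) ~ (D u_0) x` (`x` occurs in `U` before), and
`u_(k+1) y ~ (D u_(k+1)) y^(n+1) ~ y^(n+1) (D u_(k+1)) ~ y (D u_(k+1))`.  (iv) No `z_i`: then
`p x y q (D u_0) x y r`, use `k`.  Otherwise with `m = k`:
`r' = (D u_(k+1)) r = q_0 z_(σ 0) q_1 z_(σ 1) .. z_(σ k) q_(k+1)` where the `z_i` are the first
occurrences of these letters in `r'` in the order `τ = [σ 0, .., σ k]` (induction on `r'`); apply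
`Kap n β τ m` with `X = [x]`, `Y = [y]`, `A = q ++ D u_0`, `B = []`, `S (σ j) = q_j`, `L i = [z_i]`,
`C i = D u_(i+1)`, and `p` in front, `q_(k+1)` behind.  Then all steps back. -/
def CmwStmt : Prop := ∀ (n : ℕ) (β : FIC), Gn n β → MWZ.I1 n (RR β) →
  (∀ (m : ℕ) (τ : List ℕ), Tau τ m → Kap n β τ m) → MVO.Sys.F (RR β)

/-! ### the doubling pentagon -/

/-- FOR (medium-strong).  **Form of the instances.**  Twin of MWGN.FOR with
`h i = pw (n+1) (f (C i))`. -/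
def ForStmt : Prop := ∀ (n : ℕ) (τ : List ℕ) (m : ℕ), Tau τ m → ∀ (f : ℕ → List ℕ),
  (∀ o' : Bool, ∃ H : List ℕ,
    (∀ o : Bool, (w0 n τ m o o').flatMap f = (if o then f 0 ++ f 1 else f 1 ++ f 0) ++ (f 2 ++ (f 0 ++
      (gh (fun i => if i < m then f (N1.L i) else if decide (i = m) = o' then f (N1.L m) else
          f (N1.L (m + 1)))
        (fun i => if i < m then pw (n + 1) (f (N1.C i)) else []) (m + 2) ++ (f 1 ++ H))))) ∧
    (∀ i ≤ m + 1, ∃ H1 H2, H = H1 ++ (f (N1.L i) ++ H2)) ∧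
    (∃ H1 H2 H3, H = H1 ++ (f (N1.L m) ++ (H2 ++ (f (N1.L (m + 1)) ++ H3))))) ∧
  (∀ o : Bool, ∃ P F H : List ℕ,
    (∀ o' : Bool, (w0 n τ m o o').flatMap f = P ++ ((if o' then f (N1.L m) ++ f (N1.L (m + 1)) else
      f (N1.L (m + 1)) ++ f (N1.L m)) ++ (F ++ (f (N1.L m) ++
      (gh (fun i => f ((N2 m).L i)) (fun i => if i < m + 1 then pw (n + 1) (f ((N2 m).C i))
        else []) (m + 2) ++ (f (N1.L (m + 1)) ++ H)))))) ∧
    (∀ i ≤ m + 1, ∃ H1 H2, H = H1 ++ (f ((N2 m).L i) ++ H2)) ∧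
    (∃ H1 H2, H = H1 ++ (f ((N2 m).L m) ++ (f ((N2 m).L (m + 1)) ++ H2))))

/-- MC1 (medium, uses FOR, MWGN.MCV).  Twin of MWGN.MC1.  The letters of `h i` occur at least
`n + 1 ≥ 2` times in `G`. -/
def Mc1Stmt : Prop := ∀ (n : ℕ), 1 ≤ n → ∀ (τ : List ℕ) (m : ℕ), Tau τ m → ∀ (o' : Bool)
  (f : ℕ → List ℕ) (p q : List ℕ), Kc τ m (p ++ (w0 n τ m true o').flatMap f ++ q) →
    ¬ (N1.L m ∈ f 0 ∧ N1.L (m + 1) ∈ f 1)

/-- MC2 (medium, uses FOR, MWGN.MCV, MWGN.MPO, MWGN.HZE).  Twin of MWGN.MC2. -/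
def Mc2Stmt : Prop := ∀ (n : ℕ), 1 ≤ n → ∀ (τ : List ℕ) (m : ℕ), Tau τ m → ∀ (f : ℕ → List ℕ)
  (p q : List ℕ), Kb τ m (p ++ (w0 n τ m true false).flatMap f ++ q) →
  Kc τ m (p ++ (w0 n τ m true false).flatMap f ++ q) → ¬ (0 ∈ f 0 ∧ 1 ∈ f 1)

/-- MC3 (medium-strong, uses FOR, MWGN.MCV, MWGN.MPO, MWGN.HZE).  Twin of MWGN.MC3. -/
def Mc3Stmt : Prop := ∀ (n : ℕ), 1 ≤ n → ∀ (τ : List ℕ) (m : ℕ), Tau τ m → ∀ (o : Bool)
  (f : ℕ → List ℕ) (p q : List ℕ), Kb τ m (p ++ (w0 n τ m o true).flatMap f ++ q) →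
    ¬ (0 ∈ f (N1.L m) ∧ 1 ∈ f (N1.L (m + 1)))

/-- CLO (medium, uses FOR, MWGN.WCX, MWGN.SPX, MC1, MC2, MC3).  **The closure properties.**  Twin of
MWGN.CLO; `Rs2` is kept because both words have the same letters (`List.Perm.count_eq` or
`List.count_append`, `Nat.add_comm`). -/
def CloStmt : Prop := ∀ (n : ℕ), 1 ≤ n → ∀ (τ : List ℕ) (m : ℕ), Tau τ m → ∀ (f : ℕ → List ℕ)
  (p q : List ℕ),
  (∀ o' : Bool, KC n τ m (p ++ (w0 n τ m true o').flatMap f ++ q) ↔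
    KC n τ m (p ++ (w0 n τ m false o').flatMap f ++ q)) ∧
  (∀ o : Bool, KB n τ m (p ++ (w0 n τ m o true).flatMap f ++ q) ↔
    KB n τ m (p ++ (w0 n τ m o false).flatMap f ++ q)) ∧
  ((KB n τ m (p ++ (w0 n τ m true false).flatMap f ++ q) ∧
      KC n τ m (p ++ (w0 n τ m true false).flatMap f ++ q)) ↔
    (KB n τ m (p ++ (w0 n τ m false false).flatMap f ++ q) ∧
      KC n τ m (p ++ (w0 n τ m false false).flatMap f ++ q)))

/-- DPE (medium, uses VCL, SA1, SA2, CLO).  **Doubling pentagon.**  Twin of MWGN.DPE. -/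
def DpeStmt : Prop := ∀ (n : ℕ) (β : FIC), ModF β → Gn n β → ∀ (m : ℕ) (τ : List ℕ), Tau τ m →
  Kap n β τ m

/-- G3F (easy, uses GND, DPE, CMW).  Modularity and `I1` imply `Cm^w`, all periods. -/
def G3fStmt : Prop := ∀ (n : ℕ) (β : FIC), ModF β → 1 ≤ n → RR β [0, 0] (Z (n + 2)) →
  (∀ k : ℕ, 1 ≤ k → ¬ β.r (lx ^ (k + 1)) lx) → RR β [0, 1, 0] (0 :: 1 :: Z (n + 1)) →
  ¬ RR β [0, 1, 0] (Z (n + 1) ++ 1 :: Z (n + 1)) →
  RR β (Z (n + 1) ++ List.replicate (n + 1) 1) (List.replicate (n + 1) 1 ++ Z (n + 1)) →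
  RR β [0, 1, 2, 0, 1] [1, 0, 2, 0, 1] → MWZ.I1 n (RR β) → MVO.Sys.F (RR β)

end Pool.Agent.MWGQ
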