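import Pool.Agent.MWGQ.DefsC
import Pool.Agent.MWGQ.Stmts

/-!
# MWGQ, part C: the crossing hull pentagon for period `n` (rows)

MP_23468a_al, necessity in the world `xyx ≈ xyx^(n+1)`, all periods: the hull of a heavy letter is
filled.  Every row is the twin of the row of MWGN (part C, `MWGN/StmtsC.lean`) with the same name:
copy the file (table mwgn, column path) and adapt it.  The combinatorial rows INC, KFI, MPF, MCF,
ORD, STY, STX, STR, NOF, DSR, TLF, TWT, RUN, PRF of MWGN are used unchanged.  `E = pw (2n) X =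
pw n X ++ pw n X` (`pw_add`: `pw (a+b) u = pw a u ++ pw b u`).
-/

namespace Pool.Agent.MWGQ

open Pool.Agent.Helper14_MV Pool.Agent.Helper2_MV
open Pool.Agent.MWK (pre)
open Pool.Agent.MWF (gaml)
open Pool.Agent.MWGN (Nm WC WT Tau Ns nl sg nn gh Ins WR Nr nr NF tw KF Kx Ky)

/-- FOF (medium).  **Form of the instances.**  Twin of MWGN.FOF: `f 0 ++ f 0` becomes
`pw n (f 0) ++ pw n (f 0)`, the same for `f 1`; contents `dp n`. -/
def FofStmt : Prop := ∀ (n : ℕ) (τ : List ℕ) (r : ℕ), 1 ≤ r → Tau τ r → ∀ f : ℕ → List ℕ,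
  ∃ R : List ℕ, (∀ i ≤ r + 2, ∃ R1 R2, R = R1 ++ (f (NF.L i) ++ R2)) ∧
    (∀ a s : Bool, (wf n τ r a s).flatMap f = (pw n (f 0) ++ (pw n (f 0) ++ f (NF.L 0))) ++
      ((pw n (f 1) ++ pw n (f 1)) ++
      (gh (fun i => f (NF.L (i + 1))) (fun i => if i < r then dp n f a s i else
        if i = r then pw n (f 0) ++ pw n (f 0) else []) (r + 2) ++
          ((pw n (f 1) ++ pw n (f 1)) ++ R)))) ∧
    (∀ a s : Bool, (wf n τ r a s).flatMap f = (pw n (f 0) ++ pw n (f 0)) ++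
      (gh (fun i => f (NF.L i)) (fun i => if i = 0 then pw n (f 1) ++ pw n (f 1) else
        if i ≤ r then dp n f a s (i - 1) else []) (r + 2) ++ ((pw n (f 0) ++ pw n (f 0)) ++
          (f (NF.L (r + 2)) ++ (pw n (f 1) ++ (pw n (f 1) ++ R)))))) ∧
    (∀ s : Bool, Ins (pw n (f 1) ++ pw n (f 1))
      (gh (fun i => f (NF.L (i + 1))) (fun i => if i < r then dp n f false s i else
        if i = r then pw n (f 0) ++ pw n (f 0) else []) (r + 2))
      (gh (fun i => f (NF.L (i + 1))) (fun i => if i < r then dp n f true s i else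
        if i = r then pw n (f 0) ++ pw n (f 0) else []) (r + 2)) r) ∧
    (∀ a : Bool, Ins (pw n (f 0) ++ pw n (f 0))
      (gh (fun i => f (NF.L i)) (fun i => if i = 0 then pw n (f 1) ++ pw n (f 1) else
        if i ≤ r then dp n f a false (i - 1) else []) (r + 2))
      (gh (fun i => f (NF.L i)) (fun i => if i = 0 then pw n (f 1) ++ pw n (f 1) else
        if i ≤ r then dp n f a true (i - 1) else []) (r + 2)) r)

/-- CLF (medium, uses FOF, MWGN.INP, MWGN.KFI, MWGN.STY, MWGN.STX, MWGN.STR).  **Closure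
properties.**  Twin of MWGN.CLF with `ξ = pw n (f 0)`, `η = pw n (f 1)`.  `RF`: the number of `c`
changes by `r * (E.count c)` (INP, with the form `A ++ (E ++ (M ++ (E ++ R)))`), and
`E.count c = 2 * (n * ..) ≡ 0`.  (Letters of `pw (n+1) (f (C ..))` occur at least `n + 1 ≥ 2` times
in `M`, letters of `pw n u ++ pw n u` at least `2` times.) -/
def ClfStmt : Prop := ∀ (n : ℕ), 1 ≤ n → ∀ (τ : List ℕ) (r : ℕ), 1 ≤ r → Tau τ r →
  ∀ (f : ℕ → List ℕ) (p q : List ℕ),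
  (∀ s : Bool, KX n τ r (p ++ (wf n τ r false s).flatMap f ++ q) ↔
    KX n τ r (p ++ (wf n τ r true s).flatMap f ++ q)) ∧
  (∀ a : Bool, KY n τ r (p ++ (wf n τ r a false).flatMap f ++ q) ↔
    KY n τ r (p ++ (wf n τ r a true).flatMap f ++ q)) ∧
  ((KX n τ r (p ++ (wf n τ r true false).flatMap f ++ q) ∧
      KY n τ r (p ++ (wf n τ r true false).flatMap f ++ q)) ↔
    (KX n τ r (p ++ (wf n τ r true true).flatMap f ++ q) ∧
      KY n τ r (p ++ (wf n τ r true true).flatMap f ++ q)))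

/-- FAA (medium, uses PWX).  `x^2zsz ≈ x^2zx^nsz` implies `FB`.
Proof.  Twin of MWGN.FAA.  Let `E = pw (2n) X`.  `E L s L ~ E L (pw n X) s L` (`A0` for the last two
`X` of `E`), `pw n X ~ E` (not first, PWX (2)), `E (pw (n+1) C) ~ (pw (n+1) C) E` (PWX (3)).  Insert
from the left to the right. -/
def FaaStmt : Prop := ∀ (n : ℕ) (β : FIC), Gn n β → A0 n β → ∀ (r : ℕ) (τ : List ℕ), Tau τ r →
  FB n β τ r

/-- FAP (medium, uses PWX).  `xtzxsz ≈ xtx^nzxsz` implies `FB`.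
Proof.  Twin of MWGN.FAP, from the right to the left: `X t L_r X s L_r ~ X t (pw n X) L_r X s L_r`,
`pw n X ~ E`; the `E` in front of `L_r` stands behind `C_(r-1)^(n+1)`; `C^(n+1) E ~ C^(n+1) E E ~
E C^(n+1) E`, so there is (temporarily) an `X` behind `L_(r-1)`, and so on; at the end remove the
temporary ones. -/
def FapStmt : Prop := ∀ (n : ℕ) (β : FIC), Gn n β → P0 n β → ∀ (r : ℕ) (τ : List ℕ), Tau τ r →
  FB n β τ r

/-- NRF (medium).  The exponents in the normal form of a run.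
Proof.  As NOR: the number of `c ∈ nr ν r` in the filtered word is `w.count c`.  All names are
different.  `C s` (`s < r`) occurs only in `U s`; `L s` occurs once in the first part (`s < r`: the
block of `s`; `s = r`: `ν.L r`) and `f s` times behind `S s`. -/
def NrfStmt : Prop := ∀ (ν : Nm) (τ : List ℕ) (r : ℕ), Tau τ r → (nr ν r).Nodup →
  ∀ (w : List ℕ) (i j : ℕ) (U : ℕ → List ℕ) (f : ℕ → ℕ),
    (∀ s < r, ∀ c ∈ U s, c = ν.x ∨ c = ν.C s) →
    w.filter (fun c => decide (c ∈ nr ν r)) = List.replicate i ν.x ++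
      ((List.range r).flatMap (fun s => ν.L s :: U s) ++ ν.L r :: (List.replicate j ν.x ++ ν.b ::
        τ.flatMap (fun s => ν.S s :: List.replicate (f s) (ν.L s)))) →
      (∀ s < r, (U s).count (ν.C s) = w.count (ν.C s)) ∧ ∀ s ≤ r, f s + 1 = w.count (ν.L s)

/-- NOG (medium, uses PWX).  Normalisation after `x ↦ x^(2n)`.
Proof.  Twin of MWGN.NOG.  `x^(2n i) ~ x^(2n)` (PWX (1)).  `U s` with `x ↦ x^(2n)`: if `x ∉ U s` it is
`C^e`, `e ≥ 2`, `e ≡ 1`, `~ C^(n+1)`.  Otherwise `U s = x^a C U'`, the letters of `U'` are not first in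
the word (`x` occurs in front, `C` occurs), `C ~ C^(n+1)`, and `x^(2n)`, `C^(n+1)` commute (PWX (3)):
`U' ~ C^k x^(2n b)`, `k = U'.count C ≥ 1`; `x^(2n a) C C^k x^(2n b) ~ C^(1+k) x^(2n (a+b)) ~
C^(n+1) x^(2n)` (`1 + k ≥ 2`, `1 + k = (U s).count C ≡ 1`).  `x^(2n j) ~ x^(2n)`, `(L s)^(f s) ~ L s` (not
first, `f s ≡ 1`).  Congruence over `range r` and over `τ` by induction. -/
def NogStmt : Prop := ∀ (n : ℕ) (β : FIC), Gn n β → ∀ (ν : Nm) (τ : List ℕ) (r : ℕ),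
  (nr ν r).Nodup → Tau τ r → ∀ (i j : ℕ) (U : ℕ → List ℕ) (f : ℕ → ℕ), 1 ≤ i → 1 ≤ j →
    (∀ s < r, (∀ c ∈ U s, c = ν.x ∨ c = ν.C s) ∧ 2 ≤ (U s).count (ν.C s) ∧
      (U s).count (ν.C s) ≡ 1 [MOD n]) → (∀ s ≤ r, 1 ≤ f s ∧ f s ≡ 1 [MOD n]) →
      RR β ((List.replicate i ν.x ++ ((List.range r).flatMap (fun s => ν.L s :: U s) ++
          ν.L r :: (List.replicate j ν.x ++ ν.b ::
            τ.flatMap (fun s => ν.S s :: List.replicate (f s) (ν.L s))))).flatMap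
              (fun c => if c = ν.x then List.replicate (2 * n) ν.x else [c]))
        (ws n [ν.x] [ν.b] (sg ν.S) (sg ν.L) (sg ν.C) (fun s => decide (ν.x ∈ U s)) τ r)

/-- RNF (medium).  Renaming.  Twin of MWGN.RNF (`(pw k u).flatMap f = pw k (u.flatMap f)`). -/
def RnfStmt : Prop := ∀ (n : ℕ) (β : FIC) (ν : Nm) (τ : List ℕ) (r : ℕ), Tau τ r →
  (nr ν r).Nodup →
  RR β (ws n [ν.x] [ν.b] (sg ν.S) (sg ν.L) (sg ν.C) (fun _ => false) τ r)
    (ws n [ν.x] [ν.b] (sg ν.S) (sg ν.L) (sg ν.C) (fun _ => true) τ r) → FB n β τ r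

/-- FSP (strong, uses PWX, MWGN.TLF).  **One filled gap fills all.**  Twin of MWGN.FSP: `X X` becomes
`E = pw (2n) X`, `C_iC_i` becomes `pw (n+1) (C_i)`; `E (pw (n+1) C) ~ (pw (n+1) C) E` and `E ~ E E` by
PWX.  (Left run: `pw (2n) X .. L_i E B' ..` with `B' = pw (n+1) (C_i) ..`; right run:
`E L_(i+1) .. L_n E B tails`.) -/
def FspStmt : Prop := ∀ (n : ℕ) (β : FIC), Gn n β → ∀ r : ℕ,
  (∀ m < r, ∀ τ, Tau τ m → FB n β τ m) → ∀ τ : List ℕ, Tau τ r → ∀ s : ℕ → Bool,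
    (∃ i < r, s i = true) → ∀ (X B : List ℕ) (S L C : ℕ → List ℕ),
      RR β (ws n X B S L C s τ r) (ws n X B S L C (fun _ => true) τ r)

/-- VEQ (medium, uses MWGN.NOF, NRF, NOG, MWGN.DSR, RNF, FSP, CNT).  **No `x` inside the run is kept
by `β`.**
Proof.  Twin of MWGN.VEQ.  Suppose `nn w x (L 0) = nn w x (L r)` but not so for `w'`.
`RR.filter (· ∈ nr ν r)` and `RR.sub (x ↦ x^(2n))`; NOF and NOG for `w` and `w'` (residues: `Rr` for `w`
and, by CNT, for `w'`, NRF; `f s + 1 ≡ 2` gives `f s ≡ 1`): `ws .. (fun _ => false) ~ ws .. s` with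
`s i = true` for some `i < r`.  FSP: `~ ws .. (fun _ => true)`.  RNF and DSR: `FB n β τ r`. -/
def VeqStmt : Prop := ∀ (n : ℕ) (β : FIC), Gn n β → ∀ (ν : Nm) (τ : List ℕ) (r : ℕ), Nr ν r →
  Tau τ r → (∀ m < r, ∀ τ, Tau τ m → FB n β τ m) → ¬ FB n β τ r → ∀ w w' : List ℕ, RR β w w' →
    WR ν r w → WT ν τ r w → WR ν r w' → WT ν τ r w' → Rr n ν r w →
      nn w ν.x (ν.L 0) = nn w ν.x (ν.L r) → nn w' ν.x (ν.L 0) = nn w' ν.x (ν.L r)

/-- VCF (medium, uses OLR, TLR, CNT, VEQ, MWGN.RUN, FAA, FAP).  `β` keeps `KX`, `KY`.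
Proof.  Twin of MWGN.VCF (`CNT` in place of SIM, CTT); `RF` by CNT; `Rr` for the runs `Nx`, `Ny r` from
`RF` (`ix i, iy r i ≤ r + 2`, `C' i = C (i+1)`). -/
def VcfStmt : Prop := ∀ (n : ℕ) (β : FIC), Gn n β → ∀ (τ : List ℕ) (r : ℕ), 1 ≤ r → Tau τ r →
  (∀ m < r, ∀ τ, Tau τ m → FB n β τ m) → ¬ FB n β τ r → ∀ w w' : List ℕ, RR β w w' →
    (KX n τ r w → KX n τ r w') ∧ (KY n τ r w → KY n τ r w')

/-- SAF (medium-strong, uses MWGN.PRF, MWGN.TWT).  The word `wf n τ r false false` satisfies `KX` and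
`KY`, and `wf n τ r false true` does not satisfy `KX`.
Proof.  Twin of MWGN.SAF.  `x` and `y` occur `4n ≥ 2` times, `C i` occurs `n + 1` times, `L i` twice.
Second claim: `nn w 0 (L 0) = 2n`, `nn w 0 (L (r+1)) = 2n + 2n r`. -/
def SafStmt : Prop := ∀ (n : ℕ), 1 ≤ n → ∀ (τ : List ℕ) (r : ℕ), 1 ≤ r → Tau τ r →
  KX n τ r (wf n τ r false false) ∧ KY n τ r (wf n τ r false false) ∧
    ¬ KX n τ r (wf n τ r false true)

/-- PEF (medium, uses VCF, CLF, SAF).  **The crossing hull pentagon: hulls are filled.**  Twin of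
MWGN.PEF (`r = 0`: both words are equal). -/
def PefStmt : Prop := ∀ (n : ℕ) (β : FIC), ModF β → Gn n β → ∀ (r : ℕ) (τ : List ℕ), Tau τ r →
  FB n β τ r

end Pool.Agent.MWGQ
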