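import Pool.Agent.MWGQ.StmtsC
import Pool.Agent.MWGN.StmtsD

/-!
# MWGQ, part D: the fill identity for all words, period `n` (rows)
-/

namespace Pool.Agent.MWGQ

open Pool.Agent.Helper14_MV Pool.Agent.Helper2_MV
open Pool.Agent.MWK (pre)
open Pool.Agent.MWGN (Nm Tau)

/-- the fill identity for all words: `p c^(2n) w w' c q ≈ p c^(2n) w c^n w' c q` -/
def FFW (n : ℕ) (β : FIC) : Prop := ∀ (p w w' q : List ℕ) (c : ℕ),
  (∀ a ∈ w ++ w', 2 ≤ (p ++ (List.replicate (2 * n) c ++ (w ++ (w' ++ c :: q)))).count a) →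
    RR β (p ++ (List.replicate (2 * n) c ++ (w ++ (w' ++ c :: q))))
      (p ++ (List.replicate (2 * n) c ++ (w ++ (List.replicate n c ++ (w' ++ c :: q)))))

/-- `x^n` can be inserted between two occurrences of `x` (this is `MWGR.It n (RR β)`) -/
def It (n : ℕ) (S : List ℕ → List ℕ → Prop) : Prop := ∀ (p w w' q : List ℕ) (x : ℕ),
  MVO.Sys.Mul (w ++ w') (p ++ x :: (w ++ (w' ++ x :: q))) →
    S (p ++ x :: (w ++ (w' ++ x :: q))) (p ++ x :: (w ++ (List.replicate n x ++ (w' ++ x :: q))))

/-- FFR (strong, uses PWX, FSP).  **FB and I1 imply the fill identity for all words.**  Twin of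
MWGN.FFR (file Helper36_MWGN/FFR.lean): `dbl u` becomes `D u = u.flatMap (replicate (n+1))` (each
letter which occurs before, or again in a multiple word behind it, may be replaced by its power
with exponent `n + 1`), `(D u)^(n+1) ~ D u` (the powers commute), `c c` becomes `c^(2n)`, the inserted
`c` becomes `c^n` (`~ c^(2n)` behind an occurrence of `c`); for `n = 1` nothing changes. -/
def FfrStmt : Prop := ∀ (n : ℕ) (β : FIC), Gn n β → MWZ.I1 n (RR β) →
  (∀ (r : ℕ) (τ : List ℕ), Tau τ r → FB n β τ r) → FFW n β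

/-- ITA (easy-medium, uses PWX).  The fill identity and `I1` imply `It`.
Proof.  `p x w w' x q ~ p x^(n+1) w w' x q` (`I1` with `c = w ++ w'`) `~ p x^(n+1) x^(2n) w w' x q`
(PWX (1)) `~ p x^(n+1) x^(2n) w x^n w' x q` (`FFW` with `p ++ x^(n+1)`) `~ p x^(n+1) w x^n w' x q`
`~ p x w x^n w' x q` (`I1` with `c = w ++ x^n ++ w'` backwards; `x` occurs at least twice).  Every letter
of `w ++ w'` occurs at least as often in the larger words. -/
def ItaStmt : Prop := ∀ (n : ℕ) (β : FIC), Gn n β → MWZ.I1 n (RR β) → FFW n β → It n (RR β)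

end Pool.Agent.MWGQ
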