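import Pool.Agent.MWGN.StmtsB

/-!
# MWGQ: the doubling pentagon for period `n` (definitions)

MP_23468a_al, world `xyx ≈ xyx^(n+1)`.  The names `Nm`, `WC`, `WT`, `Tau`, `Ns`, `nl`, `sg`, `nn`,
`N1`, `N2`, `K0`, `Kb`, `Kc`, `T2` are those of MWGN.
-/

namespace Pool.Agent.MWGQ

open Pool.Agent.Helper14_MV Pool.Agent.Helper2_MV
open Pool.Agent.MWK (pre)
open Pool.Agent.MWGN (Nm WC WT Tau Ns nl sg nn N1 N2 K0 Kb Kc T2)

/-- the power of a word -/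
def pw (k : ℕ) (u : List ℕ) : List ℕ := (List.replicate k u).flatten

/-- `0^a` -/
abbrev Z (a : ℕ) : List ℕ := List.replicate a 0

/-- the world: `n` is the exact period, `xyx ≈ xyx^(n+1)`, not `xyx ≈ x^(n+1)yx^(n+1)`,
`x^(n+1)y^(n+1) ≈ y^(n+1)x^(n+1)`, `xytxy ≈ yxtxy` -/
structure Gn (n : ℕ) (β : FIC) : Prop where
  pos : 1 ≤ n
  per : RR β [0, 0] (Z (n + 2))
  e1 : ∀ a b : ℕ, RR β (Z a) (Z b) → a ≤ 1 → b = a
  en : ∀ a b : ℕ, RR β (Z a) (Z b) → a ≡ b [MOD n]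
  gm : RR β [0, 1, 0] (0 :: 1 :: Z (n + 1))
  nb : ¬ RR β [0, 1, 0] (Z (n + 1) ++ 1 :: Z (n + 1))
  c : RR β (Z (n + 1) ++ List.replicate (n + 1) 1) (List.replicate (n + 1) 1 ++ Z (n + 1))
  k : RR β [0, 1, 2, 0, 1] [1, 0, 2, 0, 1]

/-- `x^2y ≈ x^2yx^n` -/
def E0 (n : ℕ) (β : FIC) : Prop := RR β [0, 0, 1] ([0, 0, 1] ++ Z n)
/-- `x^2zsz ≈ x^2zx^nsz` (`x = 0`, `z = 1`, `s = 2`) -/
def A0 (n : ℕ) (β : FIC) : Prop := RR β [0, 0, 1, 2, 1] ([0, 0, 1] ++ (Z n ++ [2, 1]))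
/-- `xtzxsz ≈ xtx^nzxsz` (`x = 0`, `z = 1`, `t = 2`, `s = 3`) -/
def P0 (n : ℕ) (β : FIC) : Prop := RR β [0, 2, 1, 0, 3, 1] ([0, 2] ++ (Z n ++ [1, 0, 3, 1]))

/-- `L 0, (C 0)^(n+1), …, L (m-1), (C (m-1))^(n+1)` -/
def bd (n : ℕ) (L C : ℕ → List ℕ) (m : ℕ) : List ℕ :=
  (List.range m).flatMap (fun i => L i ++ pw (n + 1) (C i))

/-- the common rest of the two words of the identity `kappa` -/
def kr (n : ℕ) (X Y A B : List ℕ) (S L C : ℕ → List ℕ) (τ : List ℕ) (m : ℕ) : List ℕ :=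
  A ++ (X ++ (bd n L C m ++ (L m ++ (Y ++ (B ++ τ.flatMap (fun i => S i ++ L i))))))

/-- **kappa** -/
def Kap (n : ℕ) (β : FIC) (τ : List ℕ) (m : ℕ) : Prop :=
  ∀ (X Y A B : List ℕ) (S L C : ℕ → List ℕ),
    RR β (X ++ (Y ++ kr n X Y A B S L C τ m)) (Y ++ (X ++ kr n X Y A B S L C τ m))

/-- residues of the numbers of occurrences -/
structure Rs (n : ℕ) (ν : Nm) (m nc : ℕ) (w : List ℕ) : Prop where
  x : w.count ν.x ≡ 2 [MOD n]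
  y : w.count ν.y ≡ 2 [MOD n]
  l : ∀ i ≤ m + 1, w.count (ν.L i) ≡ 2 [MOD n]
  c : ∀ i < nc, w.count (ν.C i) ≡ 1 [MOD n]

/-- residues for both levels -/
def Rs2 (n m : ℕ) (w : List ℕ) : Prop := Rs n N1 m m w ∧ Rs n (N2 m) m (m + 1) w

/-- the rest `kr` with letters -/
def krl (n : ℕ) (ν : Nm) (τ : List ℕ) (m : ℕ) : List ℕ :=
  kr n [ν.x] [ν.y] [ν.a] [ν.b] (sg ν.S) (sg ν.L) (sg ν.C) τ m

/-- the block behind the simple letter `S i` of level 1 -/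
def T1 (n m i : ℕ) : List ℕ :=
  if i = m then N1.L m :: (bd n (sg (N2 m).L) (sg (N2 m).C) (m + 1) ++
    [(N2 m).L (m + 1), N1.L (m + 1)]) else [N1.L i]

/-- the rest of the words -/
def ww (n : ℕ) (τ : List ℕ) (m : ℕ) (o : Bool) : List ℕ :=
  2 :: 0 :: (bd n (sg N1.L) (sg N1.C) m ++ ((if o then [N1.L m, N1.L (m + 1)] else
    [N1.L (m + 1), N1.L m]) ++ 1 :: 3 :: (τ.flatMap (fun i => N1.S i :: T1 n m i) ++
      4 :: τ.flatMap (fun i => (N2 m).S i :: T2 m i))))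

/-- the four words: order of `0, 1` and order of `L m`, `L (m+1)` -/
def w0 (n : ℕ) (τ : List ℕ) (m : ℕ) (o o' : Bool) : List ℕ :=
  (if o then [0, 1] else [1, 0]) ++ ww n τ m o'

/-- the classes with residues -/
def KB (n : ℕ) (τ : List ℕ) (m : ℕ) (w : List ℕ) : Prop := Kb τ m w ∧ Rs2 n m w

/-- the classes with residues -/
def KC (n : ℕ) (τ : List ℕ) (m : ℕ) (w : List ℕ) : Prop := Kc τ m w ∧ Rs2 n m w

end Pool.Agent.MWGQ
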