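import Pool.Agent.MWGQ.Defs
import Pool.Agent.MWGN.StmtsC

/-!
# MWGQ, part C: the crossing hull pentagon for period `n` (definitions)

`Ins`, `WR`, `Nr`, `nr`, `NF`, `tw`, `KF`, `Kx`, `Ky`, `Nx`, `Ny`, `ix`, `iy` are those of MWGN.
-/

namespace Pool.Agent.MWGQ

open Pool.Agent.Helper14_MV Pool.Agent.Helper2_MV
open Pool.Agent.MWK (pre)
open Pool.Agent.MWGN (Nm WC WT Tau Ns nl sg nn NF tw KF Kx Ky)

/-- `L_0 C_0^(n+1) [X^(2n)] L_1 C_1^(n+1) [X^(2n)] ..`, the power of `X` is present behind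
`C_i` if `s i` -/
def bs (n : ℕ) (L C : ℕ → List ℕ) (X : List ℕ) (s : ℕ → Bool) (r : ℕ) : List ℕ :=
  (List.range r).flatMap (fun i => L i ++ (pw (n + 1) (C i) ++ (if s i then pw (2 * n) X else [])))

/-- `X^(2n) L_0 C_0^(n+1) [X^(2n)] .. C_{r-1}^(n+1) [X^(2n)] L_r X^(2n) B (S_i L_i)_{i ∈ τ}` -/
def ws (n : ℕ) (X B : List ℕ) (S L C : ℕ → List ℕ) (s : ℕ → Bool) (τ : List ℕ) (r : ℕ) :
    List ℕ :=
  pw (2 * n) X ++ (bs n L C X s r ++ (L r ++ (pw (2 * n) X ++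
    (B ++ τ.flatMap (fun i => S i ++ L i)))))

/-- **FB**: the hull of a heavy letter is filled -/
def FB (n : ℕ) (β : FIC) (τ : List ℕ) (r : ℕ) : Prop :=
  ∀ (X B : List ℕ) (S L C : ℕ → List ℕ),
    RR β (ws n X B S L C (fun _ => false) τ r) (ws n X B S L C (fun _ => true) τ r)

/-- gap `i + 1`: `C^(n+1) [y^(2n)] [x^(2n)]` with `C = C (i+1)` -/
def gp (n : ℕ) (u v : Bool) (i : ℕ) : List ℕ :=
  List.replicate (n + 1) (NF.C (i + 1)) ++ ((if u then List.replicate (2 * n) 1 else []) ++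
    (if v then List.replicate (2 * n) 0 else []))

/-- `x^(2n) L_0 y^(2n) L_1 gp_0 L_2 gp_1 .. L_r gp_{r-1} L_{r+1} x^(2n) L_{r+2} y^(2n) b
(S_i L_i)` -/
def wf (n : ℕ) (τ : List ℕ) (r : ℕ) (u v : Bool) : List ℕ :=
  List.replicate (2 * n) 0 ++ (NF.L 0 :: (List.replicate (2 * n) 1 ++
    ((List.range r).flatMap (fun i => NF.L (i + 1) :: gp n u v i) ++
      NF.L (r + 1) :: (List.replicate (2 * n) 0 ++ (NF.L (r + 2) ::
        (List.replicate (2 * n) 1 ++ (2 :: (tw τ r).flatMap (fun i => [NF.S i, NF.L i]))))))))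

/-- residues of the numbers of occurrences -/
def RF (n r : ℕ) (w : List ℕ) : Prop :=
  (∀ i ≤ r + 2, w.count (NF.L i) ≡ 2 [MOD n]) ∧
    ∀ i, 1 ≤ i → i ≤ r → w.count (NF.C i) ≡ 1 [MOD n]

/-- residues for a run -/
def Rr (n : ℕ) (ν : Nm) (r : ℕ) (w : List ℕ) : Prop :=
  (∀ i ≤ r, w.count (ν.L i) ≡ 2 [MOD n]) ∧ ∀ i < r, w.count (ν.C i) ≡ 1 [MOD n]

/-- the classes with residues -/
def KX (n : ℕ) (τ : List ℕ) (r : ℕ) (w : List ℕ) : Prop := Kx τ r w ∧ RF n r w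

/-- the classes with residues -/
def KY (n : ℕ) (τ : List ℕ) (r : ℕ) (w : List ℕ) : Prop := Ky τ r w ∧ RF n r w

/-- contents of an instance: `C^(n+1) [y^(2n)] [x^(2n)]` -/
def dp (n : ℕ) (f : ℕ → List ℕ) (a s : Bool) (i : ℕ) : List ℕ :=
  pw (n + 1) (f (NF.C (i + 1))) ++ ((if a then pw n (f 1) ++ pw n (f 1) else []) ++
    (if s then pw n (f 0) ++ pw n (f 0) else []))

end Pool.Agent.MWGQ
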